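import Mathlib

set_option autoImplicit false

/-!
# Directed 1-domination of the complete 3-uniform hypergraph

Some orientation of the complete 3-uniform hypergraph on `n` vertices has no directed 1-dominating set with
fewer than `c (log n) ^ α` elements, for every `α < 1 / 3`. The vertices are labelled trees of depth three; a
tree `u` beats a tree `s` if the truncation of `s` is one of the branches at the root of `u`; the root of a
tree has a label which does not occur elsewhere in the tree, so this relation has no directed cycles of length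
at most three, and every set of `k` trees is beaten by one tree.
-/

namespace Pool.Agent.Results.MP_39aace_co.PolylogLowerBound

open Finset

/-- the edges of `H(n,3)`: the sets of three vertices -/
abbrev Edge (n : ℕ) : Type := {E : Finset (Fin n) // E.card = 3}

/-- an orientation orders the three vertices of each edge `E`: `D E 0`, `D E 1`, `D E 2` are the first, second
and third vertex of `E` -/
abbrev Orientation (n : ℕ) : Type := (E : Edge n) → (Fin 3 ≃ {x : Fin n // x ∈ E.1})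

/-- `S` is a directed 1-dominating set: every vertex outside `S` lies in an edge whose first vertex is in `S` -/
def Dominating {n : ℕ} (D : Orientation n) (S : Finset (Fin n)) : Prop :=
  ∀ u : Fin n, u ∉ S → ∃ E : Edge n, u ∈ E.1 ∧ (D E 0).1 ∈ S

/-- the minimum size of a directed 1-dominating set -/
noncomputable def gam {n : ℕ} (D : Orientation n) : ℕ := sInf {m | ∃ S : Finset (Fin n), Dominating D S ∧ S.card = m}

/-- the maximum of `gam D` over all orientations of `H(n,3)` -/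
noncomputable def Gam (n : ℕ) : ℕ := sSup {m | ∃ D : Orientation n, gam D = m}

lemma dom_univ {n : ℕ} (D : Orientation n) : Dominating D univ := fun u hu => absurd (mem_univ u) hu

lemma gam_le {n : ℕ} (D : Orientation n) : gam D ≤ n :=
  Nat.sInf_le ⟨univ, dom_univ D, by rw [card_univ, Fintype.card_fin]⟩

lemma gam_ge {n k : ℕ} (D : Orientation n) (h : ∀ S : Finset (Fin n), S.card ≤ k → ¬ Dominating D S) :
    k + 1 ≤ gam D := by
  have hne : {m | ∃ S : Finset (Fin n), Dominating D S ∧ S.card = m}.Nonempty := ⟨_, univ, dom_univ D, rfl⟩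
  obtain ⟨S, hS, hc⟩ := Nat.sInf_mem hne
  by_contra hcon
  have hlt : gam D ≤ k := by omega
  exact h S (by rw [hc]; exact hlt) hS

lemma Gam_ge {n k : ℕ} (D : Orientation n) (h : k ≤ gam D) : k ≤ Gam n := by
  refine h.trans ?_
  refine le_csSup ⟨n, ?_⟩ ⟨D, rfl⟩
  rintro m ⟨D', rfl⟩
  exact gam_le D'

/-- From a finite digraph without directed cycles of length at most three, in which every set of at most `k`
vertices has a common in-neighbour, to an orientation. -/
theorem of_digraph {V : Type} [Fintype V] [Nonempty V] (r : V → V → Prop) (h1 : ∀ a, ¬ r a a)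
    (h2 : ∀ a b, r a b → ¬ r b a) (h3 : ∀ a b c, r a b → r b c → ¬ r c a) (k : ℕ)
    (hk : ∀ S : Finset V, S.card ≤ k → ∃ v, ∀ s ∈ S, r v s) (n : ℕ) (hn : Fintype.card V ≤ n) :
    k + 1 ≤ Gam n := by
  classical
  -- the projection
  obtain ⟨π, hπ⟩ : ∃ π : Fin n → V, Function.Surjective π := by
    obtain ⟨e⟩ : Nonempty (V ↪ Fin n) := Function.Embedding.nonempty_of_card_le (by
      rw [Fintype.card_fin]; exact hn)
    exact ⟨Function.invFun e, Function.invFun_surjective e.injective⟩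
  -- the heads
  have hhead : ∀ E : Edge n, ∃ x : {x : Fin n // x ∈ E.1}, ∀ y ∈ E.1, ¬ r (π y) (π x.1) := by
    rintro ⟨E, hE⟩
    obtain ⟨a, b, c, hab, hac, hbc, rfl⟩ := card_eq_three.1 hE
    by_contra hcon
    push Not at hcon
    have key : ∀ x : Fin n, x = a ∨ x = b ∨ x = c → r (π a) (π x) ∨ r (π b) (π x) ∨ r (π c) (π x) := by
      intro x hx
      obtain ⟨y, hy, hr⟩ := hcon ⟨x, by
        rcases hx with rfl | rfl | rfl <;> simp⟩
      simp only [mem_insert, mem_singleton] at hy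
      rcases hy with rfl | rfl | rfl
      · exact Or.inl hr
      · exact Or.inr (Or.inl hr)
      · exact Or.inr (Or.inr hr)
    have ka := key a (Or.inl rfl)
    have kb := key b (Or.inr (Or.inl rfl))
    have kc := key c (Or.inr (Or.inr rfl))
    rcases ka with ka | ka | ka
    · exact h1 _ ka
    · rcases kb with kb | kb | kb
      · exact h2 _ _ ka kb
      · exact h1 _ kb
      · rcases kc with kc | kc | kc
        · exact h3 _ _ _ kb ka kc
        · exact h2 _ _ kb kc
        · exact h1 _ kc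
    · rcases kc with kc | kc | kc
      · exact h2 _ _ ka kc
      · rcases kb with kb | kb | kb
        · exact h3 _ _ _ kc ka kb
        · exact h1 _ kb
        · exact h2 _ _ kb kc
      · exact h1 _ kc
  choose hd hhd using hhead
  -- the orientation
  have hor : ∀ E : Edge n, ∃ e : Fin 3 ≃ {x : Fin n // x ∈ E.1}, e 0 = hd E := by
    intro E
    have hcard : Fintype.card {x : Fin n // x ∈ E.1} = 3 := by
      rw [Fintype.card_coe]
      exact E.2
    let e0 : Fin 3 ≃ {x : Fin n // x ∈ E.1} := (Fintype.equivFinOfCardEq hcard).symm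
    refine ⟨(Equiv.swap 0 (e0.symm (hd E))).trans e0, ?_⟩
    simp
  choose D hD using hor
  refine Gam_ge D (gam_ge D ?_)
  intro S hS hdom
  obtain ⟨v, hv⟩ := hk (S.image π) (card_image_le.trans hS)
  obtain ⟨u, rfl⟩ := hπ v
  have hu : u ∉ S := fun h => h1 _ (hv (π u) (mem_image_of_mem π h))
  obtain ⟨E, huE, hES⟩ := hdom u hu
  rw [hD] at hES
  exact hhd E u huE (hv _ (mem_image_of_mem π hES))

/-! ### The trees -/

section Trees

variable (q k : ℕ)

/-- labelled trees of depth 1, 2, 3 -/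
abbrev T1 : Type := Fin q × (Fin k → Fin q)
abbrev T2 : Type := Fin q × (Fin k → T1 q k)
abbrev T3 : Type := Fin q × (Fin k → T2 q k)

variable {q k}

/-- truncations -/
def tr2 (t : T2 q k) : T1 q k := (t.1, fun i => (t.2 i).1)
def tr3 (t : T3 q k) : T2 q k := (t.1, fun i => tr2 (t.2 i))

/-- the label of the root does not occur elsewhere -/
def Proper (t : T3 q k) : Prop :=
  (∀ i, t.1 ≠ (t.2 i).1) ∧ (∀ i j, t.1 ≠ ((t.2 i).2 j).1) ∧ ∀ i j l, t.1 ≠ ((t.2 i).2 j).2 l

/-- `u` beats `s` -/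
def Bt (u s : {t : T3 q k // Proper t}) : Prop := ∃ i, u.1.2 i = tr3 s.1

lemma no1 (u : {t : T3 q k // Proper t}) : ¬ Bt u u := by
  rintro ⟨i, hi⟩
  apply u.2.1 i
  rw [hi]
  rfl

lemma no2 (u s : {t : T3 q k // Proper t}) (h : Bt u s) : ¬ Bt s u := by
  obtain ⟨i, hi⟩ := h
  rintro ⟨j, hj⟩
  apply u.2.2.1 i j
  rw [hi]
  show u.1.1 = (s.1.2 j).1
  rw [hj]
  rfl

lemma no3 (u s w : {t : T3 q k // Proper t}) (h : Bt u s) (h' : Bt s w) : ¬ Bt w u := by
  obtain ⟨i, hi⟩ := h
  obtain ⟨j, hj⟩ := h'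
  rintro ⟨l, hl⟩
  apply u.2.2.2 i j l
  rw [hi]
  show u.1.1 = ((s.1.2 j).2 l).1
  rw [hj]
  show u.1.1 = (w.1.2 l).1
  rw [hl]
  rfl

/-- a label for the root -/
lemma exists_label (hq : k + k ^ 2 + k ^ 3 < q) (c : Fin k → T2 q k) : ∃ a : Fin q, Proper ((a, c) : T3 q k) := by
  classical
  let F1 : Finset (Fin q) := univ.image (fun i : Fin k => (c i).1)
  let F2 : Finset (Fin q) := univ.image (fun x : Fin k × Fin k => ((c x.1).2 x.2).1)
  let F3 : Finset (Fin q) := univ.image (fun x : Fin k × Fin k × Fin k => ((c x.1).2 x.2.1).2 x.2.2)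
  have c1 : F1.card ≤ k := card_image_le.trans (by simp)
  have c2 : F2.card ≤ k ^ 2 := card_image_le.trans (by simp [sq])
  have c3 : F3.card ≤ k ^ 3 := card_image_le.trans (by simp [pow_succ, mul_assoc])
  have hc : (F1 ∪ F2 ∪ F3).card < (univ : Finset (Fin q)).card := by
    rw [card_univ, Fintype.card_fin]
    have h4 := card_union_le (F1 ∪ F2) F3
    have h5 := card_union_le F1 F2
    omega
  obtain ⟨a, -, ha⟩ := exists_mem_notMem_of_card_lt_card hc
  simp only [mem_union, not_or] at ha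
  refine ⟨a, fun i h => ha.1.1 ?_, fun i j h => ha.1.2 ?_, fun i j l h => ha.2 ?_⟩
  · exact mem_image.2 ⟨i, mem_univ _, h.symm⟩
  · exact mem_image.2 ⟨(i, j), mem_univ _, h.symm⟩
  · exact mem_image.2 ⟨(i, j, l), mem_univ _, h.symm⟩

lemma dom (hq : k + k ^ 2 + k ^ 3 < q) (S : Finset {t : T3 q k // Proper t}) (hS : S.card ≤ k) :
    ∃ v, ∀ s ∈ S, Bt v s := by
  classical
  obtain ⟨c, hc⟩ : ∃ c : Fin k → T2 q k, ∀ s ∈ S, ∃ i, c i = tr3 s.1 := by
    rcases S.eq_empty_or_nonempty with rfl | ⟨s0, hs0⟩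
    · haveI : Nonempty (Fin q) := ⟨⟨0, by omega⟩⟩
      exact ⟨fun _ => Classical.arbitrary _, fun s hs => absurd hs (notMem_empty s)⟩
    · let e := S.equivFin
      refine ⟨fun i => if h : (i : ℕ) < S.card then tr3 ((e.symm ⟨i, h⟩).1).1 else tr3 s0.1, ?_⟩
      intro s hs
      refine ⟨⟨(e ⟨s, hs⟩ : ℕ), lt_of_lt_of_le (e ⟨s, hs⟩).2 hS⟩, ?_⟩
      simp
  obtain ⟨a, ha⟩ := exists_label hq c
  refine ⟨⟨(a, c), ha⟩, fun s hs => ?_⟩
  obtain ⟨i, hi⟩ := hc s hs
  exact ⟨i, hi⟩

end Trees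

/-- the bound in terms of the number `q` of labels -/
theorem Gam_trees (k n : ℕ) (hn : (k + k ^ 2 + k ^ 3 + 1) ^ (k + k ^ 2 + k ^ 3 + 1) ≤ n) : k + 1 ≤ Gam n := by
  classical
  set q := k + k ^ 2 + k ^ 3 + 1 with hq
  have hlt : k + k ^ 2 + k ^ 3 < q := by omega
  haveI : Nonempty {t : T3 q k // Proper t} := by
    obtain ⟨v, -⟩ := dom (q := q) (k := k) hlt ∅ (by simp)
    exact ⟨v⟩
  refine of_digraph (V := {t : T3 q k // Proper t}) Bt no1 no2 no3 k (dom hlt) n ?_
  refine (Fintype.card_subtype_le _).trans (le_trans (le_of_eq ?_) hn)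
  simp only [Fintype.card_prod, Fintype.card_fin, Fintype.card_fun]
  have e : q = 1 + (1 + (1 + k) * k) * k := by rw [hq]; ring
  calc q * (q * (q * q ^ k) ^ k) ^ k = q ^ (1 + (1 + (1 + k) * k) * k) := by
        rw [pow_add, pow_one, pow_mul, pow_add, pow_one, pow_mul, pow_add, pow_one]
    _ = q ^ q := by rw [← e]

theorem Gam_cube (K n : ℕ) (hK : 1 ≤ K) (hn : (K ^ 3) ^ (K ^ 3) ≤ n) : K ≤ Gam n := by
  obtain ⟨k, rfl⟩ : ∃ k, K = k + 1 := ⟨K - 1, by omega⟩
  apply Gam_trees
  refine le_trans ?_ hn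
  have h : k + k ^ 2 + k ^ 3 + 1 ≤ (k + 1) ^ 3 := by
    have : (k + 1) ^ 3 = k ^ 3 + 3 * k ^ 2 + 3 * k + 1 := by ring
    omega
  calc (k + k ^ 2 + k ^ 3 + 1) ^ (k + k ^ 2 + k ^ 3 + 1) ≤ ((k + 1) ^ 3) ^ (k + k ^ 2 + k ^ 3 + 1) :=
        Nat.pow_le_pow_left h _
    _ ≤ ((k + 1) ^ 3) ^ ((k + 1) ^ 3) := Nat.pow_le_pow_right (by positivity) h

/-- **Directed 1-domination of the complete 3-uniform hypergraph.** For every `0 < α < 1 / 3` there is `c > 0`
such that `Γ₁(H(n,3)) ≥ c (log n) ^ α` for all `n ≥ 3`. -/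
theorem result : ∀ α : ℝ, 0 < α → α < 1 / 3 → ∃ c : ℝ, 0 < c ∧
    ∀ n : ℕ, 3 ≤ n → c * (Real.log n) ^ α ≤ (Gam n : ℝ) := by
  intro α hα hα3
  set δ : ℝ := 1 / α - 3 with hδ
  have hδ0 : 0 < δ := by
    have : 3 < 1 / α := by
      rw [lt_div_iff₀ hα]
      linarith
    linarith
  refine ⟨(δ / 3) ^ α / 2, by positivity, fun n hn => ?_⟩
  have hn3 : (3 : ℝ) ≤ n := by exact_mod_cast hn
  have hlog : 0 ≤ Real.log n := Real.log_nonneg (by linarith)
  set x : ℝ := (δ / 3 * Real.log n) ^ α with hx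
  have hx0 : 0 ≤ x := by positivity
  have hxe : (δ / 3) ^ α / 2 * Real.log n ^ α = x / 2 := by
    rw [hx, Real.mul_rpow (by positivity) hlog]
    ring
  rw [hxe]
  have h1 : 1 ≤ Gam n := Gam_cube 1 n le_rfl (by simp; omega)
  rcases Nat.eq_zero_or_pos ⌊x⌋₊ with h0 | h0
  · have hx1 : x < 1 := by
      have := Nat.lt_floor_add_one x
      rw [h0] at this
      simpa using this
    have : (1 : ℝ) ≤ Gam n := by exact_mod_cast h1
    linarith
  · set K := ⌊x⌋₊ with hK
    have hKx : (K : ℝ) ≤ x := Nat.floor_le hx0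
    have hK1 : (1 : ℝ) ≤ K := by exact_mod_cast h0
    have hxK : x < K + 1 := Nat.lt_floor_add_one x
    have hmain : K ≤ Gam n := by
      apply Gam_cube K n h0
      have hnpos : (0 : ℝ) < n := by linarith
      have hKpos : (0 : ℝ) < K := by linarith
      have h2 : (((K ^ 3) ^ (K ^ 3) : ℕ) : ℝ) ≤ n := by
        rw [← Real.log_le_log_iff (by positivity) hnpos]
        push_cast
        rw [Real.log_pow, Real.log_pow]
        push_cast
        have h3 : Real.log K ≤ (K : ℝ) ^ δ / δ := Real.log_le_rpow_div hKpos.le hδ0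
        have h4 : (K : ℝ) ^ (3 : ℕ) * (K : ℝ) ^ δ = (K : ℝ) ^ (1 / α) := by
          rw [← Real.rpow_natCast, ← Real.rpow_add hKpos]
          congr 1
          rw [hδ]
          push_cast
          ring
        have h5 : (K : ℝ) ^ (1 / α) ≤ δ / 3 * Real.log n := by
          calc (K : ℝ) ^ (1 / α) ≤ x ^ (1 / α) := Real.rpow_le_rpow hKpos.le hKx (by positivity)
            _ = δ / 3 * Real.log n := by
              rw [hx, ← Real.rpow_mul (by positivity), mul_one_div_cancel hα.ne', Real.rpow_one]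
        calc (K : ℝ) ^ 3 * (3 * Real.log K) ≤ (K : ℝ) ^ 3 * (3 * ((K : ℝ) ^ δ / δ)) := by gcongr
          _ = 3 / δ * ((K : ℝ) ^ 3 * (K : ℝ) ^ δ) := by ring
          _ = 3 / δ * (K : ℝ) ^ (1 / α) := by rw [h4]
          _ ≤ 3 / δ * (δ / 3 * Real.log n) := by gcongr
          _ = Real.log n := by field_simp
      exact_mod_cast h2
    have h6 : (K : ℝ) ≤ Gam n := by exact_mod_cast hmain
    linarith

end Pool.Agent.Results.MP_39aace_co.PolylogLowerBound
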